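import Pool.Agent.Helper640.PL.Poly

/-!
# Path-like trees can be recognised in polynomial time

Structure theorem (`Struct.lean`): a tree with `n` vertices is path-like if and only if it is
isomorphic to a graph obtained from the path `v_0 … v_{n-1}` by replacing each edge `v_i v_{i+1}`,
`i ∈ S`, by `v_{i-κ(i)} v_{i+1+κ(i)}`, where `κ(i) ≥ 1` and, with `S` cutting the path into rows,
`v_{i-κ(i)}` lies in the row that ends in `v_i` and `v_{i+1+κ(i)}` in the row that starts in `v_{i+1}`
(two transformable edges that are consecutive on the path do not exist, because a unit square would
have to contain five different vertices).

Algorithm: a machine guesses the images of `v_0, …, v_{n-1}` one after the other. Its state consists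
of the number of the current vertex, its image, the image of the previous vertex of the row, and of
the two cross edges of the row with counters telling how far they are; it checks that the homomorphism
it guesses is locally injective. There are polynomially many states, so the existence of a run is
decided by reachability. A locally injective homomorphism from a connected graph to a tree is
injective; so a run gives an isomorphism.
-/

namespace Pool.Agent.Results.MP_eef266_lc.PathLikeInP

open Pool.Agent.H640.PL Pool.Agent.NPC Pool.Agent.H420.Gr

/-- **Recognising path-like trees is in `P`**: there is a polynomial-time algorithm that decides, for
a graph given by its adjacency matrix, whether it is (isomorphic to) a path-like tree. -/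
theorem result : InPP (fun M : List (List Bool) => IsPathLike (graphOf M)) :=
  inPP_isPathLike

end Pool.Agent.Results.MP_eef266_lc.PathLikeInP
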